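import Pool.Agent.helper20.SOL.FullN
import Pool.Agent.helper20.SOL.ALLN
import Pool.Agent.helper54.SOG.BD

/-!
# MP_cad530_co: all coincidences between strongly orthogonal sum graphs (full answer to Q1)

`Ty` lists the names of the irreducible root systems, `τ.R` is the standard model, `τ.ok` the usual range
of the rank. For all pairs `(τ, k)`, `(τ', m)` with `k, m > 0`: the graph `Γ(τ, k)` has an edge and
`Γ(τ, k) ≅ Γ(τ', m)`, `(τ, k) ≠ (τ', m)`, exactly when both pairs lie in one of the classes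
`{(D4,1), (D4,2), (D4,4), (B4,4), (F4,4)}`, `{(D5,1), (D5,4)}`, `{(E6,1), (E6,4)}`, `{(E8,2), (E8,8)}`,
`{(A2,1), (G2,2)}`, `{(B_l,l), (D_l,l)}` with `4 ∣ l`.
-/

namespace Pool.Agent.Results.MP_cad530_co.FullAnswer

open Pool.Agent.helper54.SOG Pool.Agent.SOL

theorem full {τ τ' : Ty} (hok : τ.ok) (hok' : τ'.ok) {k m : ℕ} (hk : 0 < k) (hm : 0 < m)
    (hedge : ∃ v w, (sosGraph τ.R k).Adj v w) :
    Nonempty (sosGraph τ.R k ≃g sosGraph τ'.R m) ↔ SameClass τ k τ' m :=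
  full_all rowsM (pairsL rowsP) hok hok' hk hm hedge

/-- an edge is inherited in a class -/
theorem edge_of_same {τ τ' : Ty} (hok : τ.ok) (hok' : τ'.ok) {k m : ℕ} (hk : 0 < k) (hm : 0 < m)
    (hedge : ∃ v w, (sosGraph τ.R k).Adj v w) (hs : SameClass τ k τ' m) :
    ∃ v w, (sosGraph τ'.R m).Adj v w :=
  edge_iso hedge ((full hok hok' hk hm hedge).2 hs)

theorem edge_D4 : ∃ v w, (sosGraph (Ty.D 4).R 1).Adj v w := edge_D_one (l := 4) (by norm_num)

theorem edge_D5 : ∃ v w, (sosGraph (Ty.D 5).R 1).Adj v w := edge_D_one (l := 5) (by norm_num)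

theorem edge_E61 : ∃ v w, (sosGraph Ty.E6.R 1).Adj v w :=
  edge_real (t := .E6) (by norm_num) edge_E6

theorem edge_E82 : ∃ v w, (sosGraph Ty.E8.R 2).Adj v w :=
  edge_real (t := .E8) (by norm_num) edge_E8

theorem edge_A21 : ∃ v w, (sosGraph (Ty.A 2).R 1).Adj v w := edge_A2

theorem edge_Dl {l : ℕ} (hl : 4 ∣ l) (h0 : 0 < l) : ∃ v w, (sosGraph (Ty.D l).R l).Adj v w := by
  obtain ⟨m, hm⟩ := hl
  obtain rfl : l = 2 * (2 * m) := by omega
  exact edge_of_four_dvd (by omega)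

theorem result (τ τ' : Ty) (hok : τ.ok) (hok' : τ'.ok) (k m : ℕ) (hk : 0 < k) (hm : 0 < m) :
    ((∃ v w, (sosGraph τ.R k).Adj v w) ∧ Nonempty (sosGraph τ.R k ≃g sosGraph τ'.R m) ∧
        (τ, k) ≠ (τ', m)) ↔
      (τ, k) ≠ (τ', m) ∧
      (((τ, k) ∈ ([(.D 4, 1), (.D 4, 2), (.D 4, 4), (.B 4, 4), (.F4, 4)] : List (Ty × ℕ)) ∧
          (τ', m) ∈ ([(.D 4, 1), (.D 4, 2), (.D 4, 4), (.B 4, 4), (.F4, 4)] : List (Ty × ℕ))) ∨
        ((τ, k) ∈ ([(.D 5, 1), (.D 5, 4)] : List (Ty × ℕ)) ∧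
          (τ', m) ∈ ([(.D 5, 1), (.D 5, 4)] : List (Ty × ℕ))) ∨
        ((τ, k) ∈ ([(.E6, 1), (.E6, 4)] : List (Ty × ℕ)) ∧
          (τ', m) ∈ ([(.E6, 1), (.E6, 4)] : List (Ty × ℕ))) ∨
        ((τ, k) ∈ ([(.E8, 2), (.E8, 8)] : List (Ty × ℕ)) ∧
          (τ', m) ∈ ([(.E8, 2), (.E8, 8)] : List (Ty × ℕ))) ∨
        ((τ, k) ∈ ([(.A 2, 1), (.G2, 2)] : List (Ty × ℕ)) ∧
          (τ', m) ∈ ([(.A 2, 1), (.G2, 2)] : List (Ty × ℕ))) ∨
        ∃ l : ℕ, 4 ∣ l ∧ (τ, k) ∈ ([(.B l, l), (.D l, l)] : List (Ty × ℕ)) ∧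
          (τ', m) ∈ ([(.B l, l), (.D l, l)] : List (Ty × ℕ))) := by
  constructor
  · rintro ⟨h1, h2, h3⟩
    refine ⟨h3, ?_⟩
    rcases (full hok hok' hk hm h1).1 h2 with h4 | h4
    · exact absurd (Prod.ext h4.1 h4.2) h3
    · exact h4
  · rintro ⟨h3, h4⟩
    have hs : SameClass τ k τ' m := Or.inr h4
    have he : ∃ v w, (sosGraph τ.R k).Adj v w := by
      rcases h4 with ⟨h5, _⟩ | ⟨h5, _⟩ | ⟨h5, _⟩ | ⟨h5, _⟩ | ⟨h5, _⟩ | ⟨l, hl, h5, _⟩
      · exact edge_of_same (τ := .D 4) (by norm_num [Ty.ok]) hok (by norm_num) hk edge_D4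
          (Or.inr (Or.inl ⟨List.mem_cons_self, h5⟩))
      · exact edge_of_same (τ := .D 5) (by norm_num [Ty.ok]) hok (by norm_num) hk edge_D5
          (Or.inr (Or.inr (Or.inl ⟨List.mem_cons_self, h5⟩)))
      · exact edge_of_same (τ := .E6) trivial hok (by norm_num) hk edge_E61
          (Or.inr (Or.inr (Or.inr (Or.inl ⟨List.mem_cons_self, h5⟩))))
      · exact edge_of_same (τ := .E8) trivial hok (by norm_num) hk edge_E82
          (Or.inr (Or.inr (Or.inr (Or.inr (Or.inl ⟨List.mem_cons_self, h5⟩)))))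
      · exact edge_of_same (τ := .A 2) (by norm_num [Ty.ok]) hok (by norm_num) hk edge_A21
          (Or.inr (Or.inr (Or.inr (Or.inr (Or.inr (Or.inl ⟨List.mem_cons_self, h5⟩))))))
      · have h0 : k = l := by
          simp only [List.mem_cons, List.not_mem_nil, or_false, Prod.mk.injEq] at h5
          omega
        have hl4 : 4 ≤ l := Nat.le_of_dvd (by omega) hl
        exact edge_of_same (τ := .D l) hl4 hok (by omega) hk (edge_Dl hl (by omega))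
          (Or.inr (Or.inr (Or.inr (Or.inr (Or.inr (Or.inr ⟨l, hl,
            List.mem_cons_of_mem _ List.mem_cons_self, h5⟩))))))
    exact ⟨he, (full hok hok' hk hm he).2 hs, h3⟩

end Pool.Agent.Results.MP_cad530_co.FullAnswer
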