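import Pool.Agent.helper54.SOG.Main

/-!
# MP_cad530_co: all coincidences `Γ(R₁, 1) ≅ Γ(R₂, m)` with `R₁`, `R₂` simply laced

If the root graph `Γ(R₁, 1)` of an irreducible simply laced root system has an edge and is
isomorphic to `Γ(R₂, m)`, `R₂` irreducible simply laced, then every isomorphism is the restriction
of a bijective linear similarity, and `m = 1`, `R₁ ≅ R₂`, or `m = 2`, `R₁ ≅ R₂ ≅ D_4`, or `m = 4`,
`R₁ ≅ R₂`, of type `D_4`, `D_5` or `E_6`.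
-/

namespace Pool.Agent.Results.MP_cad530_co.RootGraphs

open Pool.Agent.helper54.SOG

theorem similar_rootsD (l : ℕ) {k k' : ℕ}
    (h : Nonempty (sosGraph (rootsD l) k ≃g sosGraph (rootsD l) k')) :
    Nonempty (sosGraph (typeD l) k ≃g sosGraph (typeD l) k') := by
  let f : EuclideanSpace ℝ (Fin l) ≃ₗ[ℝ] (Fin l → ℝ) := WithLp.linearEquiv 2 ℝ (Fin l → ℝ)
  have hf : f '' typeD l = rootsD l := by
    ext v
    constructor
    · rintro ⟨_, ⟨i, j, hij, s, t, hs, ht, rfl⟩, rfl⟩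
      refine ⟨i, j, hij, s, t, hs, ht, ?_⟩
      funext x
      simp [f, Pi.single_apply]
    · rintro ⟨i, j, hij, s, t, hs, ht, rfl⟩
      refine ⟨_, ⟨i, j, hij, s, t, hs, ht, rfl⟩, ?_⟩
      funext x
      simp [f, Pi.single_apply]
  have h1 : ∀ k, Nonempty (sosGraph (typeD l) k ≃g sosGraph (rootsD l) k) := by
    intro k
    have h2 := graph_iso_image (f : EuclideanSpace ℝ (Fin l) →+ (Fin l → ℝ)) f.injective
      (typeD l) k
    have h3 : ((f : EuclideanSpace ℝ (Fin l) →+ (Fin l → ℝ)) :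
      EuclideanSpace ℝ (Fin l) → (Fin l → ℝ)) '' typeD l = rootsD l := hf
    rwa [h3] at h2
  obtain ⟨a⟩ := h1 k
  obtain ⟨b⟩ := h
  obtain ⟨d⟩ := h1 k'
  exact ⟨(a.trans b).trans d.symm⟩

theorem result (E₁ : Type) [NormedAddCommGroup E₁] [InnerProductSpace ℝ E₁]
    (E₂ : Type) [NormedAddCommGroup E₂] [InnerProductSpace ℝ E₂]
    (R₁ : Set E₁) (R₂ : Set E₂) (m : ℕ) (hm : 0 < m)
    (h₁ : IsRootSystem R₁) (hi₁ : IsIrred R₁) (hs₁ : IsSimplyLaced R₁)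
    (h₂ : IsRootSystem R₂) (hi₂ : IsIrred R₂) (hs₂ : IsSimplyLaced R₂)
    (hedge : ∃ v w, (sosGraph R₁ 1).Adj v w) :
    -- every isomorphism is the restriction of a bijective linear similarity
    (∀ φ : sosGraph R₁ 1 ≃g sosGraph R₂ m, ∃ T : E₁ ≃ₗ[ℝ] E₂,
      (∃ s : ℝ, 0 < s ∧ ∀ u v, inner ℝ (T u) (T v) = s * inner ℝ u v) ∧
        ∀ v : sosSums R₁ 1, T (v : E₁) = (φ v : E₂)) ∧
    -- the coincidences
    (Nonempty (sosGraph R₁ 1 ≃g sosGraph R₂ m) →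
      (m = 1 ∧ Similar R₁ R₂) ∨ (m = 2 ∧ Similar R₁ (typeD 4) ∧ Similar R₂ (typeD 4)) ∨
        (m = 4 ∧ Similar R₁ R₂ ∧
          (Similar R₂ (typeD 4) ∨ Similar R₂ (typeD 5) ∨ Similar R₂ typeE6))) ∧
    -- they occur, except that the last case (known) is not claimed here
    ((m = 1 ∧ Similar R₁ R₂) ∨ (m = 2 ∧ Similar R₁ (typeD 4) ∧ Similar R₂ (typeD 4)) ∨
        (m = 4 ∧ Similar R₁ R₂ ∧ (Similar R₂ (typeD 4) ∨ Similar R₂ (typeD 5))) →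
      Nonempty (sosGraph R₁ 1 ≃g sosGraph R₂ m)) := by
  obtain ⟨c₁, hc₁⟩ := exists_SL h₁ hi₁ hs₁
  obtain ⟨c₂, hc₂⟩ := exists_SL h₂ hi₂ hs₂
  refine ⟨?_, ?_, ?_⟩
  · intro φ
    obtain ⟨T, hT1, _, hT3⟩ := rigid' hc₁ hi₁ h₁.span_eq hc₂ hi₂ h₂.span_eq hm φ
    exact ⟨T, ⟨_, div_pos (mul_pos (by exact_mod_cast hm) hc₂.pos) hc₁.pos, hT3⟩, hT1⟩
  · rintro ⟨φ⟩
    exact classify hc₁ hi₁ h₁.span_eq hc₂ hi₂ h₂.span_eq hm hedge φ
  · rintro (⟨rfl, h3⟩ | ⟨rfl, h3, h4⟩ | ⟨rfl, h3, h4⟩)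
    · exact h3.graph_iso 1
    · obtain ⟨a⟩ := h3.graph_iso 1
      obtain ⟨b⟩ := similar_rootsD 4 iso_D4_one_two
      obtain ⟨d⟩ := h4.symm.graph_iso 2
      exact ⟨(a.trans b).trans d⟩
    · obtain ⟨a⟩ := h3.graph_iso 1
      rcases h4 with h4 | h4
      · obtain ⟨a'⟩ := h4.graph_iso 1
        obtain ⟨b⟩ := similar_rootsD 4 (iso_D_one_four (by norm_num) (by norm_num))
        obtain ⟨d⟩ := h4.symm.graph_iso 4
        exact ⟨((a.trans a').trans b).trans d⟩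
      · obtain ⟨a'⟩ := h4.graph_iso 1
        obtain ⟨b⟩ := similar_rootsD 5 (iso_D_one_four (by norm_num) (by norm_num))
        obtain ⟨d⟩ := h4.symm.graph_iso 4
        exact ⟨((a.trans a').trans b).trans d⟩

end Pool.Agent.Results.MP_cad530_co.RootGraphs
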